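import Pool.Agent.P.MP_32de40_an.Full

open Set Pool.Agent.P.MP_32de40_an

/-- For every continuity modulus and every level, when (S) implies (E) at that level and when
(E) at that level implies (S). -/
theorem Pool.Agent.Results.MP_32de40_an.SharpLevels.result (ω : ℝ → ℝ) (L : ℝ)
    (h : IsModulus ω L) (ε : ℝ) (hε : ε ∈ Ioo (0:ℝ) 1) :
    (ε ≠ 1 / 3 →
      ((∀ f Θ : ℂ → ℂ, InLip ω f → IsInner Θ → CondS ω L f Θ → CondE ω L f Θ ε) ↔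
        (ε < 1 / 3 ∨ (∃ K : ℝ, ∀ t ∈ Ioo (0:ℝ) (1 / 2), ω (2 * t) ≤ K * ω t) ∨
          ∀ c > (0:ℝ), ∃ t ∈ Ioo (0:ℝ) 1, ω t < c * t))) ∧
    (ε ≠ Real.exp (-1) →
      ((∀ f Θ : ℂ → ℂ, InLip ω f → IsInner Θ → CondE ω L f Θ ε → CondS ω L f Θ) ↔
        (Real.exp (-1) < ε ∨ (∃ K : ℝ, ∀ t ∈ Ioo (0:ℝ) (1 / 2), ω (2 * t) ≤ K * ω t) ∨
          ∀ c > (0:ℝ), ∃ t ∈ Ioo (0:ℝ) 1, ω t < c * t))) :=
  ⟨level_s_e h hε, level_e_s h hε⟩
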